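import Mathlib
import Pool.Agent.H63.NG.NilAb

/-!
Torsion-free groups with the normalizer condition whose derived subgroup is nilpotent are
hypercentral.
-/

set_option autoImplicit false

namespace Pool.Agent.Results.MP_5de1e7_al.NilpotentByAbelian

/-- Let `G` be a torsion-free group whose derived subgroup is nilpotent (equivalently, `G` has a
nilpotent normal subgroup with abelian quotient), and let every proper subgroup of `G` be properly
contained in its normalizer.  Then `G` is hypercentral: every proper normal subgroup `N` has an
element `g` outside `N` which is central modulo `N`. -/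
theorem result :
    ∀ (G : Type) [Group G],
      (∀ g : G, g ≠ 1 → ¬ IsOfFinOrder g) →
      NormalizerCondition G →
      Group.IsNilpotent (commutator G) →
      ∀ N : Subgroup G, N.Normal → N ≠ ⊤ →
        ∃ g : G, g ∉ N ∧ ∀ x : G, x * g * x⁻¹ * g⁻¹ ∈ N := by
  intro G _ htf hG hd
  exact Pool.Agent.H63.NG.nil_by_ab G htf hG hd

end Pool.Agent.Results.MP_5de1e7_al.NilpotentByAbelian
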